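/-
Definitions and module statements for the two series for 1/pi attached to the polynomials S_n^(2)
(problem MP_e49510_nt).  No result here; every `...Stmt` is a proposition proved in its own module.
-/
import Mathlib

set_option autoImplicit false

namespace Pool.Agent.H22.Pi

open Complex Filter Asymptotics
open scoped Real Topology

/-! ### Combinatorial part -/

/-- Coefficient of `x^m` in `S_n^(2)(x)`. -/
def cc (n m : ℕ) : ℕ :=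
  ∑ i ∈ Finset.range (m + 1), (n.choose i) ^ 2 * (n.choose (m - i)) ^ 2 * (m.choose i)

/-- The polynomial `S_n^(2)(x)` of the problem file, at a real number. -/
noncomputable def S2 (n : ℕ) (x : ℝ) : ℝ :=
  ∑ i ∈ Finset.range (n + 1), ∑ j ∈ Finset.range (n + 1),
    (n.choose i : ℝ) ^ 2 * (n.choose j : ℝ) ^ 2 * ((i + j).choose i : ℝ) * x ^ (i + j)

/-- Module R1: first recurrence. -/
def Rec1Stmt : Prop := ∀ n m : ℕ,
  (-(m : ℤ) ^ 2 + 6 * m * (n + 1) - 6 * ((n : ℤ) + 1) ^ 2) * (cc (n + 1) m : ℤ)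
  + (6 + 6 * (m : ℤ) + 12 * n + 3 * (m : ℤ) ^ 2 + 6 * m * n + 6 * (n : ℤ) ^ 2) * (cc n m : ℤ)
  + (if m < 1 then 0 else
      (2 - 7 * ((m : ℤ) - 1) + 16 * n - 9 * ((m : ℤ) - 1) ^ 2 + 8 * ((m : ℤ) - 1) * n
        + 8 * (n : ℤ) ^ 2) * (cc n (m - 1) : ℤ))
  + (if m < 2 then 0 else
      (-4 + 2 * ((m : ℤ) - 2) - 16 * n + 6 * ((m : ℤ) - 2) ^ 2 - 16 * ((m : ℤ) - 2) * n)
        * (cc n (m - 2) : ℤ)) = 0

/-- Module R3: second recurrence. -/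
def Rec3Stmt : Prop := ∀ n m : ℕ,
  (-7 * (m : ℤ) ^ 2 + 6 * m * (n + 1)) * (cc (n + 1) m : ℤ)
  + (if m < 1 then 0 else
      (9 * ((m : ℤ) - 1) ^ 2 - 30 * ((m : ℤ) - 1) * (n + 1) + 26 * ((n : ℤ) + 1) ^ 2)
        * (cc (n + 1) (m - 1) : ℤ))
  + (-6 * (m : ℤ) - 5 * (m : ℤ) ^ 2 - 6 * m * n) * (cc n m : ℤ)
  + (if m < 1 then 0 else
      (-24 - 5 * ((m : ℤ) - 1) - 60 * n + 14 * ((m : ℤ) - 1) ^ 2 - 30 * ((m : ℤ) - 1) * n
        - 26 * (n : ℤ) ^ 2) * (cc n (m - 1) : ℤ))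
  + (if m < 2 then 0 else
      (22 + 15 * ((m : ℤ) - 2) + 40 * n - 7 * ((m : ℤ) - 2) ^ 2 + 40 * ((m : ℤ) - 2) * n)
        * (cc n (m - 2) : ℤ))
  + (if m < 3 then 0 else
      (-4 - 6 * ((m : ℤ) - 3) - 2 * ((m : ℤ) - 3) ^ 2) * (cc n (m - 3) : ℤ)) = 0

/-! ### Formal power series part -/

open PowerSeries in
/-- `S_n^(2)` as a power series in `X`. -/
noncomputable def Cp (n : ℕ) : PowerSeries ℚ := PowerSeries.mk fun m => (cc n m : ℚ)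

/-- `1/(1-2X)`. -/
noncomputable def kap : PowerSeries ℚ := PowerSeries.mk fun n => (2 : ℚ) ^ n

/-- `t = X/(1-2X)`. -/
noncomputable def tt : PowerSeries ℚ := PowerSeries.X * kap

/-- Coefficients of `G(x) = sum_n S_n(x) t^n`, `t = x/(1-2x)`. -/
noncomputable def aco (N : ℕ) : ℚ :=
  ∑ n ∈ Finset.range (N + 1), PowerSeries.coeff N (Cp n * tt ^ n)

/-- Coefficients of `K(x) = sum_n n S_n(x) t^n`, `t = x/(1-2x)`. -/
noncomputable def kco (N : ℕ) : ℚ :=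
  ∑ n ∈ Finset.range (N + 1), (n : ℚ) * PowerSeries.coeff N (Cp n * tt ^ n)

/-- The Euler operator `X d/dX`. -/
noncomputable def th (f : PowerSeries ℚ) : PowerSeries ℚ :=
  PowerSeries.mk fun n => (n : ℚ) * PowerSeries.coeff n f

/-- The coefficient polynomials of the order three equation, over any commutative ring. -/
def l0 {R : Type*} [CommRing R] (x : R) : R :=
  -x - 13 * x ^ 2 + 60 * x ^ 3 - 288 * x ^ 4 + 528 * x ^ 5 - 480 * x ^ 6 + 192 * x ^ 7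
def l1 {R : Type*} [CommRing R] (x : R) : R :=
  -5 * x - 11 * x ^ 2 + 194 * x ^ 3 - 692 * x ^ 4 + 1160 * x ^ 5 - 944 * x ^ 6 + 352 * x ^ 7
def l2 {R : Type*} [CommRing R] (x : R) : R :=
  -9 * x + 21 * x ^ 2 + 126 * x ^ 3 - 564 * x ^ 4 + 840 * x ^ 5 - 576 * x ^ 6 + 192 * x ^ 7
def l3 {R : Type*} [CommRing R] (x : R) : R :=
  1 - 12 * x + 37 * x ^ 2 - 6 * x ^ 3 - 136 * x ^ 4 + 208 * x ^ 5 - 112 * x ^ 6 + 32 * x ^ 7

/-- Module FS: the differential equation and the relation for the weighted sum. -/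
def FormalStmt : Prop :=
  l0 PowerSeries.X * PowerSeries.mk aco + l1 PowerSeries.X * th (PowerSeries.mk aco)
    + l2 PowerSeries.X * th (th (PowerSeries.mk aco))
    + l3 PowerSeries.X * th (th (th (PowerSeries.mk aco))) = 0 ∧
  2 * (1 - 3 * PowerSeries.X + 3 * PowerSeries.X ^ 2) * PowerSeries.mk kco
    = PowerSeries.X * (1 - 2 * PowerSeries.X) * PowerSeries.mk aco
      + (1 - PowerSeries.X) * (1 - 2 * PowerSeries.X) * th (PowerSeries.mk aco)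

/-! ### Analytic functions attached to the coefficients -/

/-- `(x d/dx)^j G`. -/
noncomputable def Gz (j : ℕ) (z : ℂ) : ℂ := ∑' N : ℕ, (N : ℂ) ^ j * (aco N : ℂ) * z ^ N

/-- Module AN1: positivity, convergence, and the values of the double series. -/
def An1Stmt : Prop :=
  (∀ N, 0 ≤ aco N) ∧ aco 0 = 1 ∧
  Summable (fun N : ℕ => (aco N : ℝ) * (1 / 8 : ℝ) ^ N) ∧
  Summable (fun N : ℕ => (kco N : ℝ) * (1 / 8 : ℝ) ^ N) ∧
  ∀ x : ℝ, 0 ≤ x → x ≤ 1 / 8 →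
    HasSum (fun k : ℕ => S2 k x * (x / (1 - 2 * x)) ^ k) (∑' N : ℕ, (aco N : ℝ) * x ^ N) ∧
    HasSum (fun k : ℕ => (k : ℝ) * S2 k x * (x / (1 - 2 * x)) ^ k)
      (∑' N : ℕ, (kco N : ℝ) * x ^ N)

/-- Module AN2: the analytic functions `Gz j`, their derivatives and the equation. -/
def An2Stmt : Prop :=
  (∀ j : ℕ, ∀ z : ℂ, ‖z‖ < 1 / 8 → Summable (fun N : ℕ => (N : ℂ) ^ j * (aco N : ℂ) * z ^ N)) ∧
  (∀ j : ℕ, DifferentiableOn ℂ (Gz j) (Metric.ball 0 (1 / 8))) ∧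
  (∀ j : ℕ, ∀ z : ℂ, ‖z‖ < 1 / 8 → z * deriv (Gz j) z = Gz (j + 1) z) ∧
  (∀ z : ℂ, ‖z‖ < 1 / 8 →
    l0 z * Gz 0 z + l1 z * Gz 1 z + l2 z * Gz 2 z + l3 z * Gz 3 z = 0) ∧
  Gz 0 0 = 1

/-! ### Modular part -/

/-- The eta function of Mathlib. -/
noncomputable abbrev et (z : ℂ) : ℂ := ModularForm.eta z

/-- The exponent of the multiplier of `eta^2`. -/
def phi (a b c d : ℤ) : ℤ := (1 - c ^ 2) * (b * d + 3 * (c - 1) * d + c + 3) + c * (a + d - 3)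

/-- Module ETA: `eta^2` under the full modular group. -/
def EtaStmt : Prop := ∀ a b c d : ℤ, a * d - b * c = 1 → ∀ z : ℂ, 0 < z.im →
  et ((a * z + b) / (c * z + d)) ^ 2
    = cexp (2 * π * I / 12 * (phi a b c d : ℤ)) * (c * z + d) * et z ^ 2

/-- `s = eta(2z) eta(13z) / (eta(z) eta(26z))`. -/
noncomputable def sf (z : ℂ) : ℂ := et (2 * z) * et (13 * z) / (et z * et (26 * z))

/-- `w = s^(-2)`. -/
noncomputable def wf (z : ℂ) : ℂ := (et z * et (26 * z) / (et (2 * z) * et (13 * z))) ^ 2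

/-- The action of the matrix `(ea, b; ec, ed)`. -/
noncomputable def Wact (e : ℕ) (a b c d : ℤ) (z : ℂ) : ℂ :=
  ((e : ℂ) * a * z + b) / ((e : ℂ) * c * z + (e : ℂ) * d)

/-- Module INV, level 26. -/
def Inv26Stmt : Prop := ∀ (e : ℕ) (a b c d : ℤ), e ∣ 26 → (26 : ℤ) ∣ e * c →
  e * a * d - b * c = 1 → ∀ z : ℂ, 0 < z.im →
  0 < (Wact e a b c d z).im ∧
  ((e = 1 ∨ e = 26) → wf (Wact e a b c d z) = wf z) ∧
  ((e = 2 ∨ e = 13) → wf (Wact e a b c d z) = (wf z)⁻¹)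

/-- The product `eta(z) eta(2z) eta(13z) eta(26z)`. -/
noncomputable def etp (z : ℂ) : ℂ := et z * et (2 * z) * et (13 * z) * et (26 * z)

/-- Module INV, the product of four discriminants. -/
def InvDStmt : Prop := ∀ (e : ℕ) (a b c d : ℤ), e ∣ 26 → (26 : ℤ) ∣ e * c →
  e * a * d - b * c = 1 → ∀ z : ℂ, 0 < z.im →
  etp (Wact e a b c d z) ^ 24
    = ((((e : ℂ) * c * z + (e : ℂ) * d) ^ 2 / e)) ^ 24 * etp z ^ 24

/-- Module INV, level `26 p`, `p = 3` or `5`. -/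
def InvPStmt (p : ℕ) : Prop := ∀ (e : ℕ) (a b c d : ℤ), e ∣ 26 * p → ((26 * p : ℕ) : ℤ) ∣ e * c →
  e * a * d - b * c = 1 →
  (∀ z : ℂ, 0 < z.im → wf (Wact e a b c d z) = wf z ∧
      wf (p * Wact e a b c d z) = wf (p * z)) ∨
  (∀ z : ℂ, 0 < z.im → wf (Wact e a b c d z) = (wf z)⁻¹ ∧
      wf (p * Wact e a b c d z) = (wf (p * z))⁻¹) ∨
  (∀ z : ℂ, 0 < z.im → wf (Wact e a b c d z) = wf (p * z) ∧
      wf (p * Wact e a b c d z) = wf z) ∨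
  (∀ z : ℂ, 0 < z.im → wf (Wact e a b c d z) = (wf (p * z))⁻¹ ∧
      wf (p * Wact e a b c d z) = (wf z)⁻¹)

/-- Module GL: a holomorphic function on the upper half plane invariant under all Atkin-Lehner
type matrices of squarefree level `N` which tends to zero at infinity vanishes. -/
def GlStmt : Prop := ∀ N : ℕ, Squarefree N → ∀ F : ℂ → ℂ,
  DifferentiableOn ℂ F {z | 0 < z.im} →
  (∀ (e : ℕ) (a b c d : ℤ), e ∣ N → (N : ℤ) ∣ e * c → e * a * d - b * c = 1 →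
    ∀ z : ℂ, 0 < z.im → F (Wact e a b c d z) = F z) →
  Tendsto F (comap Complex.im atTop) (𝓝 0) →
  ∀ z : ℂ, 0 < z.im → F z = 0

/-- The Euler product. -/
noncomputable def Eu (q : ℂ) : ℂ := ∏' n : ℕ, (1 - q ^ (n + 1))

/-- `w = q a(q)`. -/
noncomputable def aq (q : ℂ) : ℂ := (Eu q * Eu (q ^ 26) / (Eu (q ^ 2) * Eu (q ^ 13))) ^ 2

/-- First Taylor coefficients of `a(q)`. -/
def alpha {R : Type*} [CommRing R] (q : R) : R :=
  1 - 2 * q + q ^ 2 - 2 * q ^ 3 + 4 * q ^ 4 - 4 * q ^ 5 + 5 * q ^ 6 - 6 * q ^ 7 + 9 * q ^ 8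
    - 12 * q ^ 9 + 13 * q ^ 10 - 16 * q ^ 11 + 21 * q ^ 12 - 24 * q ^ 13 + 25 * q ^ 14

/-- Module QS: the expansion of `w` at infinity. -/
def QsStmt : Prop :=
  (∀ z : ℂ, 0 < z.im → wf z = cexp (2 * π * I * z) * aq (cexp (2 * π * I * z))) ∧
  (∀ z : ℂ, 0 < z.im → sf z = cexp (-(π * I * z)) * (Eu (cexp (2 * π * I * z) ^ 2)
      * Eu (cexp (2 * π * I * z) ^ 13) / (Eu (cexp (2 * π * I * z))
      * Eu (cexp (2 * π * I * z) ^ 26)))) ∧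
  DifferentiableOn ℂ Eu (Metric.ball 0 1) ∧ (∀ q : ℂ, ‖q‖ < 1 → Eu q ≠ 0) ∧ Eu 0 = 1 ∧
  DifferentiableOn ℂ aq (Metric.ball 0 1) ∧ (∀ q : ℂ, ‖q‖ < 1 → aq q ≠ 0) ∧ aq 0 = 1 ∧
  (fun q : ℂ => aq q - alpha q) =O[𝓝 0] (fun q : ℂ => q ^ 15) ∧
  (∀ r : ℝ, 0 ≤ r → r < 1 → ‖aq (r : ℂ)‖ ≤ 1)

/-- `D = (2 pi i)^(-1) d/dz`. -/
noncomputable def Dz (f : ℂ → ℂ) (z : ℂ) : ℂ := (2 * π * I)⁻¹ * deriv f z

/-- `V = D w / w`. -/
noncomputable def Vf (z : ℂ) : ℂ := Dz wf z / wf z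

/-- The sextic of the curve `X_0(26)`. -/
def S6 {R : Type*} [CommRing R] (w : R) : R :=
  1 - 8 * w + 8 * w ^ 2 - 18 * w ^ 3 + 8 * w ^ 4 - 8 * w ^ 5 + w ^ 6

/-- The numerator of the Schwarzian. -/
def Nw {R : Type*} [CommRing R] (w : R) : R :=
  -4 * w + 12 * w ^ 2 - 112 * w ^ 3 + 500 * w ^ 4 - 1160 * w ^ 5 + 1676 * w ^ 6 - 2016 * w ^ 7
    + 1676 * w ^ 8 - 1160 * w ^ 9 + 500 * w ^ 10 - 112 * w ^ 11 + 12 * w ^ 12 - 4 * w ^ 13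

/-- Module C2: the Schwarzian identity. -/
def SchwStmt : Prop := ∀ z : ℂ, 0 < z.im →
  (2 * Vf z * Dz (Dz Vf) z - 3 * (Dz Vf z) ^ 2) * (S6 (wf z)) ^ 2 * (1 - wf z) ^ 2
    = (Vf z) ^ 4 * Nw (wf z)

/-- `p = P + 1/P`, `P = s(z) s(kz)`. -/
noncomputable def pf (k : ℕ) (z : ℂ) : ℂ := sf z * sf (k * z) + (sf z * sf (k * z))⁻¹

/-- `r = Q + 1/Q`, `Q = s(z) / s(kz)`. -/
noncomputable def rf (k : ℕ) (z : ℂ) : ℂ := sf z / sf (k * z) + sf (k * z) / sf z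

/-- Module C3: the modular equation of degree three. -/
def Mod3Stmt : Prop := ∀ z : ℂ, 0 < z.im →
  pf 3 z = (rf 3 z) ^ 2 + 3 * rf 3 z + 1

/-- Module C5: the modular equation of degree five. -/
def Mod5Stmt : Prop := ∀ z : ℂ, 0 < z.im →
  (pf 5 z) ^ 2 - 5 * pf 5 z * rf 5 z - 10 * pf 5 z - (rf 5 z) ^ 3 + 13 * rf 5 z + 18 = 0

/-- `x = w/(1+w^2)`. -/
noncomputable def xf (z : ℂ) : ℂ := wf z / (1 + (wf z) ^ 2)

/-- Module MP: the modular parametrisation of `G` along the imaginary axis. -/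
def MpStmt : Prop := ∀ y : ℝ, 67 / 200 ≤ y →
  ‖wf (I * y)‖ < 1 / 8 ∧ ‖xf (I * y)‖ < 1 / 8 ∧
  ∀ᶠ z in 𝓝 (I * (y : ℂ)),
    (Gz 0 (xf z)) ^ 2 * S6 (wf z) = (Vf z) ^ 2 * (1 - wf z) ^ 2 * (1 + (wf z) ^ 2) ^ 2

/-- Module EV: the two evaluations for the sequence `a_N`. -/
def EvStmt : Prop :=
  (18 * Gz 1 (1 / 11) + 7 * Gz 0 (1 / 11) = ((1089 / (4 * √39 * π) : ℝ) : ℂ)) ∧
  (40 * Gz 1 (1 / 18) + 13 * Gz 0 (1 / 18) = ((81 / (√2 * π) : ℝ) : ℂ))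

/-- The final statement (both questions of the problem file). -/
def FinalStmt : Prop :=
  HasSum (fun k : ℕ => (7 * (k : ℝ) + 1) * S2 k (1 / 11) / 9 ^ k) (5445 / (104 * √39 * π)) ∧
  HasSum (fun k : ℕ => (1365 * (k : ℝ) + 181) * S2 k (1 / 18) / 16 ^ k) (1377 / (√2 * π))

end Pool.Agent.H22.Pi
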