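/-
Truncated q-series toolkit: `TEq M f l` says that `f` is analytic at `0` and agrees with the
polynomial with integer coefficient list `l` up to `O(q^M)`.
-/
import Mathlib

set_option autoImplicit false

namespace Pool.Agent.H22.Pi.TK

open Complex Filter Asymptotics
open scoped Topology

/-- Evaluation of an integer coefficient list. -/
def ev : List ℤ → ℂ → ℂ
  | [], _ => 0
  | a :: l, q => (a : ℂ) + q * ev l q

/-- Sum of coefficient lists. -/
def ladd : List ℤ → List ℤ → List ℤ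
  | [], m => m
  | a :: l, [] => a :: l
  | a :: l, b :: m => (a + b) :: ladd l m

/-- Scalar multiple. -/
def lsc (c : ℤ) : List ℤ → List ℤ
  | [] => []
  | a :: l => (c * a) :: lsc c l

/-- Product of coefficient lists. -/
def lmul : List ℤ → List ℤ → List ℤ
  | [], _ => []
  | a :: l, m => ladd (lsc a m) (0 :: lmul l m)

/-- Product truncated at `q^M`. -/
def lmulT (M : ℕ) (l m : List ℤ) : List ℤ := (lmul l m).take M

/-- Truncated power. -/
def lpowT (M : ℕ) (l : List ℤ) : ℕ → List ℤ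
  | 0 => [1]
  | n + 1 => lmulT M (lpowT M l n) l

/-- `q d/dq` on coefficient lists. -/
def lqd : ℤ → List ℤ → List ℤ
  | _, [] => []
  | k, a :: l => (k * a) :: lqd (k + 1) l

/-- `q ↦ q^k` on coefficient lists (`k - 1` zeros are inserted after each entry). -/
def ldil (k : ℕ) : List ℤ → List ℤ
  | [] => []
  | a :: l => a :: (List.replicate (k - 1) 0 ++ ldil k l)

/-- All entries vanish. -/
def allz : List ℤ → Bool
  | [] => true
  | a :: l => (a == 0) && allz l

@[simp] lemma ev_nil (q : ℂ) : ev [] q = 0 := rfl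
@[simp] lemma ev_cons (a : ℤ) (l : List ℤ) (q : ℂ) : ev (a :: l) q = (a : ℂ) + q * ev l q := rfl

lemma ev_ladd (l m : List ℤ) (q : ℂ) : ev (ladd l m) q = ev l q + ev m q := by
  induction l generalizing m with
  | nil => simp [ladd]
  | cons a l ih =>
    cases m with
    | nil => simp [ladd]
    | cons b m => simp only [ladd, ev_cons, ih]; push_cast; ring

lemma ev_lsc (c : ℤ) (l : List ℤ) (q : ℂ) : ev (lsc c l) q = (c : ℂ) * ev l q := by
  induction l with
  | nil => simp [lsc]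
  | cons a l ih => simp only [lsc, ev_cons, ih]; push_cast; ring

lemma ev_lmul (l m : List ℤ) (q : ℂ) : ev (lmul l m) q = ev l q * ev m q := by
  induction l with
  | nil => simp [lmul]
  | cons a l ih =>
    simp only [lmul, ev_ladd, ev_lsc, ev_cons, ih]; push_cast; ring

lemma ev_append (l m : List ℤ) (q : ℂ) : ev (l ++ m) q = ev l q + q ^ l.length * ev m q := by
  induction l with
  | nil => simp
  | cons a l ih => simp only [List.cons_append, ev_cons, ih, List.length_cons]; ring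

lemma ev_replicate_zero (n : ℕ) (q : ℂ) : ev (List.replicate n 0) q = 0 := by
  induction n with
  | zero => simp
  | succ n ih => simp [List.replicate_succ, ih]

lemma ev_ldil (k : ℕ) (hk : 0 < k) (l : List ℤ) (q : ℂ) : ev (ldil k l) q = ev l (q ^ k) := by
  induction l with
  | nil => simp [ldil]
  | cons a l ih =>
    simp only [ldil, ev_cons, ev_append, ev_replicate_zero, List.length_replicate, ih]
    obtain ⟨n, rfl⟩ : ∃ n, k = n + 1 := ⟨k - 1, by omega⟩
    simp only [Nat.add_sub_cancel]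
    ring

lemma allz_ev (l : List ℤ) (h : allz l = true) (q : ℂ) : ev l q = 0 := by
  induction l with
  | nil => simp
  | cons a l ih =>
    simp only [allz, Bool.and_eq_true, beq_iff_eq] at h
    simp [h.1, ih h.2]

lemma differentiable_ev (l : List ℤ) : Differentiable ℂ (ev l) := by
  induction l with
  | nil => exact differentiable_const 0
  | cons a l ih =>
    have : ev (a :: l) = fun q => (a : ℂ) + q * ev l q := by ext q; rfl
    rw [this]
    exact (differentiable_const _).add (differentiable_id.mul ih)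

lemma analyticAt_ev (l : List ℤ) (z : ℂ) : AnalyticAt ℂ (ev l) z :=
  (differentiable_ev l).analyticAt z

lemma ev_lqd (k : ℤ) (l : List ℤ) (q : ℂ) :
    ev (lqd k l) q = (k : ℂ) * ev l q + q * deriv (ev l) q := by
  induction l generalizing k with
  | nil =>
    have : ev [] = fun _ => (0 : ℂ) := by ext q; rfl
    simp [lqd, this]
  | cons a l ih =>
    have h : ev (a :: l) = fun q => (a : ℂ) + q * ev l q := by ext q; rfl
    have hd : deriv (ev (a :: l)) q = ev l q + q * deriv (ev l) q := by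
      rw [h]
      have h1 : HasDerivAt (fun q : ℂ => q * ev l q) (1 * ev l q + q * deriv (ev l) q) q :=
        (hasDerivAt_id q).mul ((differentiable_ev l) q).hasDerivAt
      have h2 := (h1.const_add (a : ℂ)).deriv
      rw [h2]; ring
    rw [hd]
    simp only [lqd, ev_cons, ih]
    push_cast; ring

lemma ev_take_drop (M : ℕ) (l : List ℤ) (q : ℂ) :
    ∃ m : List ℤ, ev l q = ev (l.take M) q + q ^ M * ev m q ∧ m = l.drop M := by
  refine ⟨l.drop M, ?_, rfl⟩
  by_cases h : M ≤ l.length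
  · conv_lhs => rw [← List.take_append_drop M l]
    rw [ev_append, List.length_take, min_eq_left h]
  · have h' : l.length ≤ M := by omega
    rw [List.take_of_length_le h', List.drop_of_length_le h']
    simp

/-- `f` is analytic at `0` and agrees with the list `l` up to `O(q^M)`. -/
def TEq (M : ℕ) (f : ℂ → ℂ) (l : List ℤ) : Prop :=
  AnalyticAt ℂ f 0 ∧ (fun q => f q - ev l q) =O[𝓝 0] (fun q : ℂ => q ^ M)

variable {M : ℕ} {f g : ℂ → ℂ} {l m n : List ℤ}

lemma isBigO_pow_mul (M : ℕ) {h : ℂ → ℂ} (hh : ContinuousAt h 0) :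
    (fun q : ℂ => q ^ M * h q) =O[𝓝 0] (fun q : ℂ => q ^ M) := by
  have h1 : h =O[𝓝 0] (fun _ => (1 : ℂ)) := hh.norm.isBoundedUnder_le.isBigO_one ℂ
  simpa using (isBigO_refl (fun q : ℂ => q ^ M) (𝓝 0)).mul h1

/-- A function analytic at `0` which is `O(q^M)` is `q^M` times an analytic function. -/
lemma exists_factor (hf : AnalyticAt ℂ f 0) (hO : f =O[𝓝 0] (fun q : ℂ => q ^ M)) :
    ∃ h : ℂ → ℂ, AnalyticAt ℂ h 0 ∧ ∀ᶠ q in 𝓝 (0 : ℂ), f q = q ^ M * h q := by
  by_cases hz : ∀ᶠ q in 𝓝 (0 : ℂ), f q = 0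
  · exact ⟨fun _ => 0, analyticAt_const, hz.mono fun q hq => by simp [hq]⟩
  · obtain ⟨k, h, hh, h0, hk⟩ := (hf.exists_eventuallyEq_pow_smul_nonzero_iff).mpr hz
    have hkM : M ≤ k := by
      by_contra hlt
      push Not at hlt
      -- then h = O(q^(M-k)) near 0, so h 0 = 0
      have h1 : (fun q : ℂ => q ^ k * h q) =O[𝓝 0] (fun q : ℂ => q ^ M) := by
        refine hO.congr' ?_ (EventuallyEq.rfl)
        exact hk.mono fun q hq => by simpa [sub_zero, smul_eq_mul] using hq
      obtain ⟨C, hC⟩ := h1.bound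
      have h2 : ∀ᶠ q in 𝓝[≠] (0 : ℂ), ‖h q‖ ≤ C * ‖q‖ ^ (M - k) := by
        filter_upwards [nhdsWithin_le_nhds hC, self_mem_nhdsWithin] with q hq hq0
        have hq0' : 0 < ‖q‖ := norm_pos_iff.mpr hq0
        have hpk : 0 < ‖q‖ ^ k := pow_pos hq0' k
        rw [norm_mul, norm_pow, norm_pow] at hq
        have h3 : ‖q‖ ^ M = ‖q‖ ^ k * ‖q‖ ^ (M - k) := by
          rw [← pow_add]; congr 1; omega
        rw [h3] at hq
        have h4 : ‖q‖ ^ k * ‖h q‖ ≤ ‖q‖ ^ k * (C * ‖q‖ ^ (M - k)) := by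
          calc ‖q‖ ^ k * ‖h q‖ ≤ C * (‖q‖ ^ k * ‖q‖ ^ (M - k)) := hq
            _ = ‖q‖ ^ k * (C * ‖q‖ ^ (M - k)) := by ring
        exact le_of_mul_le_mul_left h4 hpk
      have h5 : Tendsto (fun q : ℂ => ‖h q‖) (𝓝[≠] 0) (𝓝 ‖h 0‖) :=
        (hh.continuousAt.norm).tendsto.mono_left nhdsWithin_le_nhds
      have h6 : Tendsto (fun q : ℂ => C * ‖q‖ ^ (M - k)) (𝓝[≠] 0) (𝓝 0) := by
        have : Tendsto (fun q : ℂ => C * ‖q‖ ^ (M - k)) (𝓝 0) (𝓝 (C * ‖(0 : ℂ)‖ ^ (M - k))) := by
          have hc : Continuous (fun q : ℂ => C * ‖q‖ ^ (M - k)) := by fun_prop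
          exact hc.tendsto 0
        have h7 : C * ‖(0 : ℂ)‖ ^ (M - k) = 0 := by
          rw [norm_zero, zero_pow (by omega), mul_zero]
        rw [h7] at this
        exact this.mono_left nhdsWithin_le_nhds
      have h8 : ‖h 0‖ ≤ 0 := le_of_tendsto_of_tendsto h5 h6 h2
      exact h0 (norm_le_zero_iff.mp h8)
    refine ⟨fun q => q ^ (k - M) * h q, ?_, ?_⟩
    · exact (analyticAt_id.pow (k - M)).mul hh
    · refine hk.mono fun q hq => ?_
      rw [hq, sub_zero, smul_eq_mul, ← mul_assoc, ← pow_add]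
      congr 2; omega

lemma TEq.congr (h : TEq M f l) (hfg : ∀ᶠ q in 𝓝 (0 : ℂ), g q = f q) : TEq M g l :=
  ⟨h.1.congr (hfg.mono fun q hq => hq.symm),
    h.2.congr' (hfg.mono fun q hq => by simp [hq]) EventuallyEq.rfl⟩

lemma TEq.of_ev (M : ℕ) (l : List ℤ) : TEq M (ev l) l :=
  ⟨analyticAt_ev l 0, by simpa using isBigO_zero _ _⟩

lemma TEq.const (M : ℕ) (c : ℤ) : TEq M (fun _ => (c : ℂ)) [c] :=
  ⟨analyticAt_const, by simpa using isBigO_zero _ _⟩

lemma TEq.id (M : ℕ) : TEq M (fun q => q) [0, 1] :=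
  ⟨analyticAt_id, by simpa using isBigO_zero _ _⟩

lemma TEq.take (h : TEq M f l) : TEq M f (l.take M) := by
  refine ⟨h.1, ?_⟩
  have h1 : (fun q : ℂ => q ^ M * ev (l.drop M) q) =O[𝓝 0] (fun q : ℂ => q ^ M) :=
    isBigO_pow_mul M (analyticAt_ev _ 0).continuousAt
  refine (h.2.add h1).congr' ?_ EventuallyEq.rfl
  refine Eventually.of_forall fun q => ?_
  obtain ⟨m, hm, rfl⟩ := ev_take_drop M l q
  simp only [hm]; ring

lemma TEq.of_take (h : TEq M f l) (hl : l.take M = m.take M) : TEq M f m := by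
  have h0 := h.take
  refine ⟨h.1, ?_⟩
  have h1 : (fun q : ℂ => q ^ M * ev (m.drop M) q) =O[𝓝 0] (fun q : ℂ => q ^ M) :=
    isBigO_pow_mul M (analyticAt_ev _ 0).continuousAt
  refine (h0.2.sub h1).congr' ?_ EventuallyEq.rfl
  refine Eventually.of_forall fun q => ?_
  obtain ⟨m', hm, rfl⟩ := ev_take_drop M m q
  simp only [hm, hl]; ring

lemma TEq.add (hf : TEq M f l) (hg : TEq M g m) : TEq M (fun q => f q + g q) (ladd l m) :=
  ⟨hf.1.add hg.1, (hf.2.add hg.2).congr' (Eventually.of_forall fun q => by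
    simp only [ev_ladd]; ring) EventuallyEq.rfl⟩

lemma TEq.smul (c : ℤ) (hf : TEq M f l) : TEq M (fun q => (c : ℂ) * f q) (lsc c l) :=
  ⟨analyticAt_const.mul hf.1, (hf.2.const_mul_left (c : ℂ)).congr'
    (Eventually.of_forall fun q => by simp only [ev_lsc]; ring) EventuallyEq.rfl⟩

lemma TEq.neg (hf : TEq M f l) : TEq M (fun q => -f q) (lsc (-1) l) :=
  (TEq.smul (-1) hf).congr (Eventually.of_forall fun q => by push_cast; ring)

lemma TEq.sub (hf : TEq M f l) (hg : TEq M g m) :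
    TEq M (fun q => f q - g q) (ladd l (lsc (-1) m)) :=
  (hf.add hg.neg).congr (Eventually.of_forall fun q => by ring)

lemma TEq.mul (hf : TEq M f l) (hg : TEq M g m) :
    TEq M (fun q => f q * g q) (lmulT M l m) := by
  have key : TEq M (fun q => f q * g q) (lmul l m) := by
    refine ⟨hf.1.mul hg.1, ?_⟩
    have h1 : (fun q => (f q - ev l q) * g q) =O[𝓝 0] (fun q : ℂ => q ^ M) := by
      have hb : g =O[𝓝 0] (fun _ => (1 : ℂ)) :=
        hg.1.continuousAt.norm.isBoundedUnder_le.isBigO_one ℂ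
      simpa using hf.2.mul hb
    have h2 : (fun q => ev l q * (g q - ev m q)) =O[𝓝 0] (fun q : ℂ => q ^ M) := by
      have hb : ev l =O[𝓝 0] (fun _ => (1 : ℂ)) :=
        (analyticAt_ev l 0).continuousAt.norm.isBoundedUnder_le.isBigO_one ℂ
      simpa using hb.mul hg.2
    refine (h1.add h2).congr' (Eventually.of_forall fun q => ?_) EventuallyEq.rfl
    simp only [ev_lmul]; ring
  exact key.take

lemma TEq.pow (hf : TEq M f l) (k : ℕ) : TEq M (fun q => f q ^ k) (lpowT M l k) := by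
  induction k with
  | zero => exact (TEq.const M 1).congr (Eventually.of_forall fun q => by simp)
  | succ k ih =>
    exact (ih.mul hf).congr (Eventually.of_forall fun q => by simp [pow_succ])

/-- `q d/dq`. -/
lemma TEq.qderiv (hf : TEq M f l) : TEq M (fun q => q * deriv f q) (lqd 0 l) := by
  refine ⟨analyticAt_id.mul hf.1.deriv, ?_⟩
  obtain ⟨h, hh, hk⟩ := exists_factor (hf.1.sub (analyticAt_ev l 0)) hf.2
  -- derivative of q^M h
  have h1 : ∀ᶠ q in 𝓝 (0 : ℂ),
      q * deriv (fun q => f q - ev l q) q = q ^ M * ((M : ℂ) * h q + q * deriv h q) := by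
    filter_upwards [hk.eventually_nhds, hh.eventually_analyticAt] with q hq hq2
    have h3 : (fun q => f q - ev l q) =ᶠ[𝓝 q] fun q => q ^ M * h q := hq
    rw [h3.deriv_eq]
    have h4 : HasDerivAt (fun q : ℂ => q ^ M * h q)
        (((M : ℂ) * q ^ (M - 1)) * h q + q ^ M * deriv h q) q :=
      (hasDerivAt_pow M q).mul hq2.differentiableAt.hasDerivAt
    rw [h4.deriv]
    rcases Nat.eq_zero_or_pos M with hM | hM
    · subst hM; simp
    · have h5 : q ^ M = q * q ^ (M - 1) := by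
        rw [← pow_succ']; congr 1; omega
      rw [h5]; ring
  have h2 : (fun q : ℂ => q ^ M * ((M : ℂ) * h q + q * deriv h q)) =O[𝓝 0]
      (fun q : ℂ => q ^ M) :=
    isBigO_pow_mul M (by
      have : AnalyticAt ℂ (fun q : ℂ => (M : ℂ) * h q + q * deriv h q) 0 :=
        (analyticAt_const.mul hh).add (analyticAt_id.mul hh.deriv)
      exact this.continuousAt)
  refine h2.congr' ?_ EventuallyEq.rfl
  filter_upwards [h1, hf.1.eventually_analyticAt] with q hq hq2
  rw [← hq, ev_lqd]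
  have h6 : deriv (fun q => f q - ev l q) q = deriv f q - deriv (ev l) q :=
    deriv_fun_sub hq2.differentiableAt ((differentiable_ev l) q)
  rw [h6]; push_cast; ring

/-- Substitution `q ↦ q^k`. -/
lemma TEq.comp_pow (k : ℕ) (hk : 0 < k) (hf : TEq M f l) :
    TEq M (fun q => f (q ^ k)) (ldil k l) := by
  have h0 : (0 : ℂ) ^ k = 0 := zero_pow hk.ne'
  refine ⟨?_, ?_⟩
  · have h1 : AnalyticAt ℂ f ((0 : ℂ) ^ k) := by rw [h0]; exact hf.1
    exact AnalyticAt.comp (f := fun q : ℂ => q ^ k) h1 (analyticAt_id.pow k)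
  · have ht : Tendsto (fun q : ℂ => q ^ k) (𝓝 0) (𝓝 0) := by
      have : Continuous (fun q : ℂ => q ^ k) := by fun_prop
      simpa [h0] using this.tendsto 0
    have h1 := hf.2.comp_tendsto ht
    have h2 : ((fun q : ℂ => q ^ M) ∘ fun q : ℂ => q ^ k) =O[𝓝 0] (fun q : ℂ => q ^ M) := by
      refine IsBigO.of_bound 1 ?_
      have hball : Metric.ball (0 : ℂ) 1 ∈ 𝓝 (0 : ℂ) := Metric.ball_mem_nhds 0 one_pos
      filter_upwards [hball] with q hq
      have hq1 : ‖q‖ ≤ 1 := by
        have := mem_ball_zero_iff.mp hq; linarith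
      simp only [Function.comp, norm_pow, one_mul]
      have : ‖q‖ ^ k ≤ ‖q‖ := by
        calc ‖q‖ ^ k ≤ ‖q‖ ^ 1 := pow_le_pow_of_le_one (norm_nonneg _) hq1 hk
          _ = ‖q‖ := pow_one _
      exact pow_le_pow_left₀ (by positivity) this M
    refine (h1.trans h2).congr' (Eventually.of_forall fun q => ?_) EventuallyEq.rfl
    simp only [Function.comp, ev_ldil k hk]

/-- Quotients: `n` is the quotient list of `l` by `m`. -/
lemma TEq.div (hf : TEq M f l) (hg : TEq M g m) (hg0 : g 0 ≠ 0)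
    (hn : (lmul m n).take M = l.take M) : TEq M (fun q => f q / g q) n := by
  refine ⟨hf.1.div hg.1 hg0, ?_⟩
  have h1 : TEq M (fun q => g q * ev n q) l := by
    have := hg.mul (TEq.of_ev M n)
    refine this.of_take ?_
    rw [lmulT, List.take_take, min_self, hn]
  have h2 : (fun q => f q - g q * ev n q) =O[𝓝 0] (fun q : ℂ => q ^ M) := by
    refine (hf.2.sub h1.2).congr' (Eventually.of_forall fun q => ?_) EventuallyEq.rfl
    ring
  have h3 : (fun q => (g q)⁻¹) =O[𝓝 0] (fun _ => (1 : ℂ)) :=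
    (hg.1.inv hg0).continuousAt.norm.isBoundedUnder_le.isBigO_one ℂ
  have h4 : (fun q => (f q - g q * ev n q) * (g q)⁻¹) =O[𝓝 0] (fun q : ℂ => q ^ M) := by
    simpa using h2.mul h3
  have hne : ∀ᶠ q in 𝓝 (0 : ℂ), g q ≠ 0 := hg.1.continuousAt.eventually_ne hg0
  refine h4.congr' ?_ EventuallyEq.rfl
  filter_upwards [hne] with q hq
  field_simp

/-- A function whose list starts with `M` zeros is `O(q^M)`. -/
lemma TEq.isBigO (hf : TEq M f l) (hl : allz (l.take M) = true) :
    f =O[𝓝 0] (fun q : ℂ => q ^ M) := by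
  refine hf.take.2.congr' (Eventually.of_forall fun q => ?_) EventuallyEq.rfl
  simp [allz_ev _ hl]

lemma TEq.mono {M' : ℕ} (hf : TEq M f l) (h : M' ≤ M) : TEq M' f l := by
  refine ⟨hf.1, hf.2.trans ?_⟩
  refine IsBigO.of_bound 1 ?_
  have hball : Metric.ball (0 : ℂ) 1 ∈ 𝓝 (0 : ℂ) := Metric.ball_mem_nhds 0 one_pos
  filter_upwards [hball] with q hq
  have hq1 : ‖q‖ ≤ 1 := by
    have := mem_ball_zero_iff.mp hq; linarith
  simp only [norm_pow, one_mul]
  exact pow_le_pow_of_le_one (norm_nonneg _) hq1 h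

/-- From `O(q^(M+1))` to a limit: `f = O(q^(M+1))` implies `f / q^M → 0`. -/
lemma tendsto_div_pow (hf : f =O[𝓝 0] (fun q : ℂ => q ^ (M + 1))) :
    Tendsto (fun q => f q / q ^ M) (𝓝[≠] 0) (𝓝 0) := by
  obtain ⟨C, hC⟩ := hf.bound
  have h1 : ∀ᶠ q in 𝓝[≠] (0 : ℂ), ‖f q / q ^ M‖ ≤ C * ‖q‖ := by
    filter_upwards [nhdsWithin_le_nhds hC, self_mem_nhdsWithin] with q hq hq0
    have hq0' : 0 < ‖q‖ := norm_pos_iff.mpr hq0
    have hp : 0 < ‖q‖ ^ M := pow_pos hq0' M
    rw [norm_div, norm_pow, div_le_iff₀ hp]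
    calc ‖f q‖ ≤ C * ‖q ^ (M + 1)‖ := hq
      _ = C * ‖q‖ * ‖q‖ ^ M := by rw [norm_pow, pow_succ]; ring
  refine squeeze_zero_norm' h1 ?_
  have : Tendsto (fun q : ℂ => C * ‖q‖) (𝓝 0) (𝓝 (C * ‖(0 : ℂ)‖)) := by
    have hc : Continuous (fun q : ℂ => C * ‖q‖) := by fun_prop
    exact hc.tendsto 0
  simp only [norm_zero, mul_zero] at this
  exact this.mono_left nhdsWithin_le_nhds

end Pool.Agent.H22.Pi.TK
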