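/-
Module QS: expansion of `w` at infinity.
-/
import Pool.Agent.H22.Pi.Defs
import Pool.Agent.H22.Pi.TK

set_option autoImplicit false

namespace Pool.Agent.H22.Pi

open Complex Filter Asymptotics TK
open scoped Real Topology

section Euler

lemma summable_pow_add {q : ℂ} (hq : ‖q‖ < 1) (k : ℕ) : Summable fun n : ℕ => ‖-q ^ (n + k)‖ := by
  simp only [norm_neg, norm_pow]
  exact (summable_nat_add_iff k).mpr (summable_geometric_of_lt_one (norm_nonneg _) hq)

lemma mult_eu {q : ℂ} (hq : ‖q‖ < 1) : Multipliable fun n : ℕ => 1 - q ^ (n + 1) :=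
  ModularForm.multipliable_one_sub_pow hq

lemma one_sub_pow_ne {q : ℂ} (hq : ‖q‖ < 1) (n : ℕ) (hn : 0 < n) : 1 - q ^ n ≠ 0 := by
  intro h
  have h1 : q ^ n = 1 := (sub_eq_zero.mp h).symm
  have h2 : ‖q‖ ^ n = 1 := by rw [← norm_pow, h1, norm_one]
  have h3 : ‖q‖ ^ n < 1 := pow_lt_one₀ (norm_nonneg _) hq hn.ne'
  linarith

lemma eu_ne_zero {q : ℂ} (hq : ‖q‖ < 1) : Eu q ≠ 0 := by
  have h := tprod_one_add_ne_zero_of_summable (f := fun n : ℕ => -q ^ (n + 1))
    (fun i => by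
      have := one_sub_pow_ne hq (i + 1) (Nat.succ_pos i)
      simpa [sub_eq_add_neg] using this) (summable_pow_add hq 1)
  simpa [Eu, sub_eq_add_neg] using h

lemma eu_zero : Eu 0 = 1 := by
  simp [Eu]

lemma eu_diff : DifferentiableOn ℂ Eu (Metric.ball 0 1) :=
  ModularForm.differentiableOn_tprod_one_sub_pow

lemma eu_split {q : ℂ} (hq : ‖q‖ < 1) (k : ℕ) :
    Eu q = (∏ n ∈ Finset.range k, (1 - q ^ (n + 1))) * ∏' n : ℕ, (1 - q ^ (n + k + 1)) := by
  have hm : Multipliable fun n : ℕ => 1 - q ^ (n + k + 1) := by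
    have := multipliable_one_add_of_summable (f := fun n : ℕ => -q ^ (n + (k + 1)))
      (summable_pow_add hq (k + 1))
    simpa [sub_eq_add_neg, add_assoc] using this
  have := Multipliable.prod_mul_tprod_nat_mul' (f := fun n : ℕ => 1 - q ^ (n + 1)) (k := k) hm
  exact this.symm

lemma tail_bound {q : ℂ} (hq : ‖q‖ ≤ 1 / 2) (k : ℕ) :
    ‖(∏' n : ℕ, (1 - q ^ (n + k + 1))) - 1‖ ≤ 4 * ‖q‖ ^ (k + 1) := by
  have hq1 : ‖q‖ < 1 := by linarith
  have hm : Multipliable fun n : ℕ => 1 + (-q ^ (n + (k + 1))) :=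
    multipliable_one_add_of_summable (summable_pow_add hq1 (k + 1))
  have ht := hm.hasProd.tendsto_prod_nat
  have ht2 : Tendsto (fun N => ‖(∏ n ∈ Finset.range N, (1 + (-q ^ (n + (k + 1))))) - 1‖) atTop
      (𝓝 ‖(∏' n : ℕ, (1 + (-q ^ (n + (k + 1))))) - 1‖) := (ht.sub_const 1).norm
  have hbound : ∀ N, ‖(∏ n ∈ Finset.range N, (1 + (-q ^ (n + (k + 1))))) - 1‖
      ≤ 4 * ‖q‖ ^ (k + 1) := by
    intro N
    have h1 := (Finset.range N).norm_prod_one_add_sub_one_le (fun n : ℕ => -q ^ (n + (k + 1)))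
    have h2 : ∑ n ∈ Finset.range N, ‖-q ^ (n + (k + 1))‖ ≤ 2 * ‖q‖ ^ (k + 1) := by
      calc ∑ n ∈ Finset.range N, ‖-q ^ (n + (k + 1))‖
          = (∑ n ∈ Finset.range N, ‖q‖ ^ n) * ‖q‖ ^ (k + 1) := by
            rw [Finset.sum_mul]
            exact Finset.sum_congr rfl fun n _ => by rw [norm_neg, norm_pow, pow_add]
        _ ≤ (∑' n : ℕ, ‖q‖ ^ n) * ‖q‖ ^ (k + 1) := by
            gcongr
            exact (summable_geometric_of_lt_one (norm_nonneg _) hq1).sum_le_tsum _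
              (fun _ _ => by positivity)
        _ = (1 - ‖q‖)⁻¹ * ‖q‖ ^ (k + 1) := by
            rw [tsum_geometric_of_lt_one (norm_nonneg _) hq1]
        _ ≤ 2 * ‖q‖ ^ (k + 1) := by
            gcongr
            rw [inv_le_comm₀ (by linarith) (by norm_num)]
            linarith
    have h3 : 2 * ‖q‖ ^ (k + 1) ≤ 1 := by
      have : ‖q‖ ^ (k + 1) ≤ 1 / 2 := by
        calc ‖q‖ ^ (k + 1) ≤ ‖q‖ ^ 1 :=
              pow_le_pow_of_le_one (norm_nonneg _) hq1.le (by omega)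
          _ ≤ 1 / 2 := by simpa using hq
      linarith
    have hx0 : 0 ≤ ∑ n ∈ Finset.range N, ‖-q ^ (n + (k + 1))‖ :=
      Finset.sum_nonneg fun _ _ => norm_nonneg _
    have h4 : Real.exp (∑ n ∈ Finset.range N, ‖-q ^ (n + (k + 1))‖) - 1
        ≤ 2 * ∑ n ∈ Finset.range N, ‖-q ^ (n + (k + 1))‖ := by
      have := Real.abs_exp_sub_one_le (x := ∑ n ∈ Finset.range N, ‖-q ^ (n + (k + 1))‖)
        (by rw [abs_of_nonneg hx0]; linarith)
      rw [abs_of_nonneg hx0] at this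
      exact (le_abs_self _).trans this
    calc _ ≤ _ := h1
      _ ≤ _ := h4
      _ ≤ 4 * ‖q‖ ^ (k + 1) := by linarith
  have := le_of_tendsto' ht2 hbound
  simpa [sub_eq_add_neg, add_assoc] using this

/-- The pentagonal list. -/
def lE : List ℤ := [1, -1, -1, 0, 0, 1, 0, 1, 0, 0, 0, 0, -1, 0, 0]

/-- coefficient list of `∏_{n<k} (1-q^(n+1))` truncated. -/
def lprod (M : ℕ) : ℕ → List ℤ
  | 0 => [1]
  | k + 1 => lmulT M (lprod M k) (1 :: (List.replicate k 0 ++ [-1]))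

lemma teq_prod (M k : ℕ) :
    TEq M (fun q => ∏ n ∈ Finset.range k, (1 - q ^ (n + 1))) (lprod M k) := by
  induction k with
  | zero => exact (TEq.const M 1).congr (Eventually.of_forall fun q => by simp)
  | succ k ih =>
    have h1 : TEq M (fun q : ℂ => 1 - q ^ (k + 1)) (1 :: (List.replicate k 0 ++ [-1])) := by
      refine (TEq.of_ev M _).congr (Eventually.of_forall fun q => ?_)
      simp only [ev_cons, ev_append, ev_replicate_zero, List.length_replicate, ev_nil]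
      push_cast; ring
    exact (ih.mul h1).congr (Eventually.of_forall fun q => by
      rw [Finset.prod_range_succ])

lemma teq_eu : TEq 15 Eu lE := by
  have hball : Metric.ball (0 : ℂ) (1 / 2) ∈ 𝓝 (0 : ℂ) := Metric.ball_mem_nhds 0 (by norm_num)
  have han : AnalyticAt ℂ Eu 0 :=
    eu_diff.analyticAt (Metric.ball_mem_nhds 0 one_pos)
  have h1 := teq_prod 15 14
  have hO : (fun q => Eu q - ∏ n ∈ Finset.range 14, (1 - q ^ (n + 1))) =O[𝓝 0]
      (fun q : ℂ => q ^ 15) := by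
    have hb : (fun q : ℂ => (∏' n : ℕ, (1 - q ^ (n + 14 + 1))) - 1) =O[𝓝 0]
        (fun q : ℂ => q ^ 15) := by
      refine IsBigO.of_bound 4 ?_
      filter_upwards [hball] with q hq
      have hq' : ‖q‖ ≤ 1 / 2 := (mem_ball_zero_iff.mp hq).le
      simpa [norm_pow] using tail_bound hq' 14
    have hp : (fun q : ℂ => ∏ n ∈ Finset.range 14, (1 - q ^ (n + 1))) =O[𝓝 0]
        (fun _ => (1 : ℂ)) := h1.1.continuousAt.norm.isBoundedUnder_le.isBigO_one ℂ
    have := hp.mul hb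
    refine (this.congr' ?_ ?_)
    · filter_upwards [hball] with q hq
      have hq' : ‖q‖ < 1 := by have := mem_ball_zero_iff.mp hq; linarith
      rw [eu_split hq' 14]; ring
    · exact Eventually.of_forall fun q => by simp
  have h2 : TEq 15 Eu (lprod 15 14) := by
    refine ⟨han, ?_⟩
    refine (hO.add h1.2).congr' (Eventually.of_forall fun q => ?_) EventuallyEq.rfl
    ring
  refine h2.of_take ?_
  decide +kernel

end Euler

section AQ

lemma norm_pow_lt_one {q : ℂ} (hq : ‖q‖ < 1) {k : ℕ} (hk : 0 < k) : ‖q ^ k‖ < 1 := by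
  rw [norm_pow]; exact pow_lt_one₀ (norm_nonneg _) hq hk.ne'

lemma eu_pow_diff {k : ℕ} (hk : 0 < k) :
    DifferentiableOn ℂ (fun q => Eu (q ^ k)) (Metric.ball 0 1) := by
  refine eu_diff.comp (differentiable_pow k).differentiableOn ?_
  intro q hq
  rw [mem_ball_zero_iff] at hq ⊢
  exact norm_pow_lt_one hq hk

lemma eu_pow_ne {q : ℂ} (hq : ‖q‖ < 1) {k : ℕ} (hk : 0 < k) : Eu (q ^ k) ≠ 0 :=
  eu_ne_zero (norm_pow_lt_one hq hk)

lemma aq_diff : DifferentiableOn ℂ aq (Metric.ball 0 1) := by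
  have h : DifferentiableOn ℂ (fun q => (Eu q * Eu (q ^ 26) / (Eu (q ^ 2) * Eu (q ^ 13))) ^ 2)
      (Metric.ball 0 1) := by
    refine DifferentiableOn.pow (DifferentiableOn.div (eu_diff.mul (eu_pow_diff (by norm_num)))
      ((eu_pow_diff (by norm_num)).mul (eu_pow_diff (by norm_num))) ?_) 2
    intro q hq
    rw [mem_ball_zero_iff] at hq
    exact mul_ne_zero (eu_pow_ne hq (by norm_num)) (eu_pow_ne hq (by norm_num))
  exact h

lemma aq_ne_zero {q : ℂ} (hq : ‖q‖ < 1) : aq q ≠ 0 := by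
  unfold aq
  exact pow_ne_zero 2 (div_ne_zero (mul_ne_zero (eu_ne_zero hq) (eu_pow_ne hq (by norm_num)))
    (mul_ne_zero (eu_pow_ne hq (by norm_num)) (eu_pow_ne hq (by norm_num))))

lemma aq_zero : aq 0 = 1 := by
  unfold aq
  rw [zero_pow (by norm_num), zero_pow (by norm_num), zero_pow (by norm_num), eu_zero]
  norm_num

/-- The list of `a(q)`. -/
def lA : List ℤ := [1, -2, 1, -2, 4, -4, 5, -6, 9, -12, 13, -16, 21, -24, 25]

/-- The list of the square root of `a(q)`. -/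
def lA1 : List ℤ := [1, -1, 0, -1, 1, -1, 1, -1, 2, -2, 2, -2, 3, -2, 2]

lemma teq_aq : TEq 15 aq lA := by
  have h1 := teq_eu.mul (teq_eu.comp_pow 26 (by norm_num))
  have h2 := (teq_eu.comp_pow 2 (by norm_num)).mul (teq_eu.comp_pow 13 (by norm_num))
  have h3 : TEq 15 (fun q => Eu q * Eu (q ^ 26) / (Eu (q ^ 2) * Eu (q ^ 13))) lA1 := by
    refine TEq.div (n := lA1) h1 h2 ?_ ?_
    · rw [zero_pow (by norm_num), zero_pow (by norm_num), eu_zero]; norm_num
    · decide +kernel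
  refine ((h3.pow 2).of_take ?_).congr (Eventually.of_forall fun q => rfl)
  decide +kernel

lemma aq_alpha : (fun q : ℂ => aq q - alpha q) =O[𝓝 0] (fun q : ℂ => q ^ 15) := by
  refine teq_aq.2.congr' (Eventually.of_forall fun q => ?_) EventuallyEq.rfl
  simp only [lA, ev_cons, ev_nil, alpha]
  push_cast; ring

lemma eta_mul_eq (k : ℕ) (hk : 0 < k) (z : ℂ) :
    et (k * z) = Function.Periodic.qParam 24 (k * z) * Eu (cexp (2 * π * I * z) ^ k) := by
  have h1 : ∀ n : ℕ, ModularForm.eta_q n (k * z) = (cexp (2 * π * I * z) ^ k) ^ (n + 1) := by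
    intro n
    rw [ModularForm.eta_q_eq_cexp, ← Complex.exp_nat_mul, ← Complex.exp_nat_mul]
    congr 1
    push_cast; ring
  simp only [et, ModularForm.eta, Eu, h1]

lemma et_eq (z : ℂ) : et z = Function.Periodic.qParam 24 z * Eu (cexp (2 * π * I * z)) := by
  have := eta_mul_eq 1 one_pos z
  simpa using this

lemma norm_q_lt_one {z : ℂ} (hz : 0 < z.im) : ‖cexp (2 * π * I * z)‖ < 1 := by
  rw [Complex.norm_exp, Real.exp_lt_one_iff]
  have : (2 * (π : ℂ) * I * z).re = -(2 * π * z.im) := by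
    simp [Complex.mul_re, Complex.mul_im]
  rw [this]
  have := Real.pi_pos
  nlinarith [mul_pos this hz]

lemma qp_eq (z : ℂ) : Function.Periodic.qParam 24 z = cexp (2 * π * I * z / 24) := by
  simp [Function.Periodic.qParam]

lemma sf_eq {z : ℂ} (hz : 0 < z.im) :
    sf z = cexp (-(π * I * z)) * (Eu (cexp (2 * π * I * z) ^ 2)
      * Eu (cexp (2 * π * I * z) ^ 13) / (Eu (cexp (2 * π * I * z))
      * Eu (cexp (2 * π * I * z) ^ 26))) := by
  have hq := norm_q_lt_one hz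
  have e1 := et_eq z
  have e2 := eta_mul_eq 2 (by norm_num) z
  have e13 := eta_mul_eq 13 (by norm_num) z
  have e26 := eta_mul_eq 26 (by norm_num) z
  push_cast at e2 e13 e26
  have n1 := eu_ne_zero hq
  have n26 := eu_pow_ne hq (k := 26) (by norm_num)
  unfold sf
  rw [e1, e2, e13, e26]
  have hx : Function.Periodic.qParam 24 (2 * z) * Function.Periodic.qParam 24 (13 * z)
      = cexp (-(π * I * z)) * (Function.Periodic.qParam 24 z
        * Function.Periodic.qParam 24 (26 * z)) := by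
    simp only [qp_eq, ← Complex.exp_add]
    congr 1; ring
  have p1 : Function.Periodic.qParam 24 z ≠ 0 := by rw [qp_eq]; exact Complex.exp_ne_zero _
  have p26 : Function.Periodic.qParam 24 (26 * z) ≠ 0 := by
    rw [qp_eq]; exact Complex.exp_ne_zero _
  set A := Function.Periodic.qParam 24 (2 * z)
  set B := Function.Periodic.qParam 24 (13 * z)
  set C := Function.Periodic.qParam 24 z
  set D := Function.Periodic.qParam 24 (26 * z)
  set E2 := Eu (cexp (2 * π * I * z) ^ 2)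
  set E13 := Eu (cexp (2 * π * I * z) ^ 13)
  set E1 := Eu (cexp (2 * π * I * z))
  set E26 := Eu (cexp (2 * π * I * z) ^ 26)
  calc A * E2 * (B * E13) / (C * E1 * (D * E26)) = (A * B) * (E2 * E13) / (C * D * (E1 * E26)) := by
        ring
    _ = (cexp (-(π * I * z)) * (C * D)) * (E2 * E13) / (C * D * (E1 * E26)) := by rw [hx]
    _ = cexp (-(π * I * z)) * (E2 * E13 / (E1 * E26)) := by field_simp

lemma wf_eq {z : ℂ} (hz : 0 < z.im) :
    wf z = cexp (2 * π * I * z) * aq (cexp (2 * π * I * z)) := by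
  have hq := norm_q_lt_one hz
  have h1 : wf z = ((sf z)⁻¹) ^ 2 := by
    unfold wf sf; rw [inv_div]
  rw [h1, sf_eq hz]
  unfold aq
  set E2 := Eu (cexp (2 * π * I * z) ^ 2)
  set E13 := Eu (cexp (2 * π * I * z) ^ 13)
  set E1 := Eu (cexp (2 * π * I * z))
  set E26 := Eu (cexp (2 * π * I * z) ^ 26)
  have hx : ((cexp (-(π * I * z)))⁻¹) ^ 2 = cexp (2 * π * I * z) := by
    rw [← Complex.exp_neg, ← Complex.exp_nat_mul]
    congr 1; push_cast; ring
  rw [mul_inv, inv_div, mul_pow, hx]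

lemma aq_real_le {r : ℝ} (h0 : 0 ≤ r) (h1 : r < 1) : ‖aq (r : ℂ)‖ ≤ 1 := by
  have hq : ‖(r : ℂ)‖ < 1 := by
    rw [Complex.norm_real, Real.norm_eq_abs, abs_of_nonneg h0]; exact h1
  -- finite products
  have t : ∀ k : ℕ, 0 < k → Tendsto (fun N => ∏ n ∈ Finset.range N, (1 - ((r : ℂ) ^ k) ^ (n + 1)))
      atTop (𝓝 (Eu ((r : ℂ) ^ k))) := fun k hk =>
    (mult_eu (norm_pow_lt_one hq hk)).hasProd.tendsto_prod_nat
  have t1 := t 1 one_pos
  have t2 := t 2 (by norm_num)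
  have t13 := t 13 (by norm_num)
  have t26 := t 26 (by norm_num)
  simp only [pow_one] at t1
  have hne : Eu ((r : ℂ) ^ 2) * Eu ((r : ℂ) ^ 13) ≠ 0 :=
    mul_ne_zero (eu_pow_ne hq (by norm_num)) (eu_pow_ne hq (by norm_num))
  have tt' := ((t1.mul t26).div (t2.mul t13) hne).norm
  have hb : ∀ N : ℕ, ‖((∏ n ∈ Finset.range N, (1 - (r : ℂ) ^ (n + 1)))
      * (∏ n ∈ Finset.range N, (1 - ((r : ℂ) ^ 26) ^ (n + 1))))
      / ((∏ n ∈ Finset.range N, (1 - ((r : ℂ) ^ 2) ^ (n + 1)))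
      * (∏ n ∈ Finset.range N, (1 - ((r : ℂ) ^ 13) ^ (n + 1))))‖ ≤ 1 := by
    intro N
    rw [← Finset.prod_mul_distrib, ← Finset.prod_mul_distrib, ← Finset.prod_div_distrib,
      Complex.norm_prod]
    refine Finset.prod_le_one (fun _ _ => norm_nonneg _) fun n _ => ?_
    have hr1 : r ^ (n + 1) < 1 := pow_lt_one₀ h0 h1 (by omega)
    have hr13 : r ^ (13 * (n + 1)) ≤ r ^ (n + 1) :=
      pow_le_pow_of_le_one h0 h1.le (by omega)
    have hp0 : 0 ≤ r ^ (n + 1) := pow_nonneg h0 _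
    have hp13 : 0 ≤ r ^ (13 * (n + 1)) := pow_nonneg h0 _
    have hr13' : r ^ (13 * (n + 1)) < 1 := lt_of_le_of_lt hr13 hr1
    have hcast : (1 - (r : ℂ) ^ (n + 1)) * (1 - ((r : ℂ) ^ 26) ^ (n + 1))
        / ((1 - ((r : ℂ) ^ 2) ^ (n + 1)) * (1 - ((r : ℂ) ^ 13) ^ (n + 1)))
        = (((1 - r ^ (n + 1)) * (1 - (r ^ (13 * (n + 1))) ^ 2)
          / ((1 - (r ^ (n + 1)) ^ 2) * (1 - r ^ (13 * (n + 1)))) : ℝ) : ℂ) := by
      push_cast
      rw [← pow_mul (r : ℂ) 26, ← pow_mul (r : ℂ) 2, ← pow_mul (r : ℂ) 13,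
        ← pow_mul (r : ℂ) (13 * (n + 1)) 2, ← pow_mul (r : ℂ) (n + 1) 2]
      congr 3 <;> ring_nf
    rw [hcast, Complex.norm_real, Real.norm_eq_abs]
    set x := r ^ (n + 1)
    set y := r ^ (13 * (n + 1))
    have e : (1 - x) * (1 - y ^ 2) / ((1 - x ^ 2) * (1 - y)) = (1 + y) / (1 + x) := by
      have a1 : (1 - x) ≠ 0 := by linarith
      have a2 : (1 - y) ≠ 0 := by linarith
      have a3 : (1 + x) ≠ 0 := by positivity
      have a4 : (1 - x ^ 2) ≠ 0 := by
        have : 1 - x ^ 2 = (1 - x) * (1 + x) := by ring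
        rw [this]; exact mul_ne_zero a1 a3
      field_simp
      ring
    rw [e, abs_of_nonneg (by positivity), div_le_one (by positivity)]
    linarith
  have hle := le_of_tendsto' tt' hb
  unfold aq
  rw [norm_pow]
  exact pow_le_one₀ (norm_nonneg _) hle

/-- Module QS. -/
theorem qs : QsStmt :=
  ⟨fun z hz => wf_eq hz, fun z hz => sf_eq hz, eu_diff, fun q hq => eu_ne_zero hq, eu_zero,
    aq_diff, fun q hq => aq_ne_zero hq, aq_zero, aq_alpha, fun r h0 h1 => aq_real_le h0 h1⟩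

end AQ

end Pool.Agent.H22.Pi
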