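/-
Assembly of project PI (MP_e49510_nt).
-/
import Pool.Agent.H21.Pi.GL
import Pool.Agent.H21.Pi.MP
import Pool.Agent.H22.Pi.QS
import Pool.Agent.H28.Pi.C3
import Pool.Agent.H28.Pi.C5
import Pool.Agent.H5.Pi.C2
import Pool.Agent.H51.Pi.AN1
import Pool.Agent.H51.Pi.FS
import Pool.Agent.H65.Pi.AN2
import Pool.Agent.H65.Pi.EV
import Pool.Agent.H65.Pi.FIN
import Pool.Agent.H85.Pi.INV26
import Pool.Agent.H85.Pi.INVD
import Pool.Agent.H85.Pi.INVP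
import Pool.Agent.H90.Pi.R1
import Pool.Agent.H90.Pi.R3

set_option autoImplicit false

namespace Pool.Agent.H22.Pi

/-- Both series. -/
theorem finalStmt : FinalStmt :=
  have hF : FormalStmt := Pool.Agent.H51.Pi.fs Pool.Agent.H90.Pi.r1 Pool.Agent.H90.Pi.r3
  have h1 : An1Stmt := Pool.Agent.H51.Pi.an1
  have h2 : An2Stmt := Pool.Agent.H65.Pi.an2 hF h1
  have hG : GlStmt := Pool.Agent.H21.Pi.gl
  have h26 : Inv26Stmt := Pool.Agent.H85.Pi.inv26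
  have hS : SchwStmt := Pool.Agent.H5.Pi.c2 h26 Pool.Agent.H85.Pi.invd hG qs
  have hM : MpStmt := Pool.Agent.H21.Pi.mp hS h2 qs
  have hE : EvStmt := Pool.Agent.H65.Pi.ev hM h26
    (Pool.Agent.H28.Pi.c3 Pool.Agent.H85.Pi.invp3 hG qs)
    (Pool.Agent.H28.Pi.c5 Pool.Agent.H85.Pi.invp5 hG qs) h1 h2 qs
  Pool.Agent.H65.Pi.fin hE hF h1

end Pool.Agent.H22.Pi
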